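import Pool.Agent.R852.BC.Rank

set_option autoImplicit false

/-!
# Discriminants of Chern polynomials and quadratic subfields of the fields of Chern roots

Let `E` be a complex vector bundle of rank `r` on `ℙ^n` with the Chern classes `c_i`, and let
`P = T^r - c₁ T^(r-1) + … ± c_r`. The theorem of Riemann-Roch gives the Riemann-Roch conditions for
`P`. For real numbers `A` and `ε > 0` and for all `n ≥ n₀(r, A, ε)` we show:

* the discriminant of every monic factor `Q` of `P` with integral coefficients is a square, or its
  absolute value is larger than `n ^ (4 √e - ε)`, where `4 √e = 6.59…`. So if `Q` has no multiple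
  roots and the discriminant of `Q` is at most `n ^ (4 √e - ε)`, then the Galois group of `Q` consists
  of even permutations of the roots; a quadratic factor with such a discriminant is a product of
  linear factors; a cubic polynomial `P` with such a discriminant is a product of three linear
  factors with integral coefficients or defines a cyclic cubic field;
* if `|c_i| ≤ n ^ A` for all `i`, then the field which is generated by the Chern roots of `E`
  contains no quadratic field `ℚ(√f)` with `|f| ≤ n ^ (4 √e - ε)`.

The bundles to which this is applied for a smooth subvariety `X ⊂ ℙ^N` of codimension `r`: if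
`2 n ≤ N - 2 r + 1` then by the theorems of Barth and Larsen the inclusion of `ℙ^n` in `ℙ^N` is
homotopic to a map to `X`, and `E` is the pull-back of the normal bundle of `X`. If `X` is a complete
intersection then all Chern roots are integers.

The proof. By the Riemann-Roch conditions `P` splits modulo the primes `p` with `r < p ≤ n + 1 - r`
(this is in the work of helper920). So the discriminant of `Q` is a square modulo these primes. The
same is true for an integer which is a square in the field generated by the roots, if `p` does not
divide the product of the differences of the distinct roots: the Frobenius elements of these primes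
are trivial. We prove Burgess' bound for the sums of real characters with arbitrary moduli `m` over
intervals of length at least `m ^ (1/4 + η)`, remove the exceptional primes, and conclude with the
method of Vinogradov.
-/

open Polynomial

namespace Pool.Agent.Results.MP_9a3fdb_ag.BurgessDiscriminants

open Pool.Agent.R920.CH

/-- **Discriminants of Chern polynomials and fields of Chern roots.** -/
theorem result (r : ℕ) (A ε : ℝ) (hε : 0 < ε) : ∃ n₀ : ℕ, ∀ n ≥ n₀, ∀ P : ℤ[X], P.Monic →
    P.natDegree = r → RiemannRoch n P →
    (∀ Q : ℤ[X], Q.Monic → Q ∣ P →
      (|Q.discr| : ℤ) ≤ (n : ℝ) ^ (4 * Real.exp (1 / 2) - ε) → IsSquare Q.discr) ∧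
    ((∀ i, (|P.coeff i| : ℤ) ≤ (n : ℝ) ^ A) →
      ∀ f : ℤ, (∃ α ∈ IntermediateField.adjoin ℚ {u : ℂ | u ∈ rootsOf P}, α ^ 2 = f) →
        (|f| : ℤ) ≤ (n : ℝ) ^ (4 * Real.exp (1 / 2) - ε) → IsSquare f) := by
  obtain ⟨n₁, h₁⟩ := Filter.eventually_atTop.mp (Pool.Agent.R852.BC.rank_discr r ε hε)
  obtain ⟨n₂, h₂⟩ := Filter.eventually_atTop.mp (Pool.Agent.R852.BC.rank_field r A ε hε)
  exact ⟨max n₁ n₂, fun n hn P hP hr hRR =>
    ⟨h₁ n (le_trans (le_max_left _ _) hn) P hP hr hRR,
      h₂ n (le_trans (le_max_right _ _) hn) P hP hr hRR⟩⟩

end Pool.Agent.Results.MP_9a3fdb_ag.BurgessDiscriminants
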