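import Pool.Agent.R503.CT.Final

/-!
# The possible Chern classes of bundles of rank three on `ℙ^n` are as rare as those of sums of line
bundles

Let `E` be a complex vector bundle of rank three on `ℙ^n` with the Chern classes `c₁`, `c₂`, `c₃`.
The theorem of Riemann-Roch gives the Riemann-Roch conditions for the polynomial
`T³ - c₁ T² + c₂ T - c₃`: the sum of the values at its roots of every integer-valued polynomial of
degree at most `n` is an integer. Sums of three line bundles satisfy them.

We show: for every `A` there is `C` such that for all sufficiently large `n` and `1 ≤ H ≤ n ^ A` the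
number of the triples `(c₁, c₂, c₃)` with `|c_i| ≤ H ^ i` that satisfy the Riemann-Roch conditions on
`ℙ^n` is at most `H³ (log n)^C`. The box contains more than `H⁶` triples, and the sums of line bundles
give at least `H³ / 1728` possible ones. So up to a power of `log n` the triples coming from sums of
line bundles are all the numerically possible ones.

Proof. Modulo each prime `3 < p ≤ n - 2` the polynomial is a product of linear factors, so its
discriminant `D` is a square modulo `p`. By the large sieve inequality for real characters and the
theorem of Bombieri and Vinogradov (as in `MP_b01859_ag.AlmostAllChernClasses`), `D` is a perfect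
square or `D = u d f²` with `u ∈ {1, -1, 2, -2}` and `d > log n` in a set of at most a power of `log n`
odd squarefree numbers. With `y = c₁² - 3 c₂`, `w = 2 c₁³ - 9 c₁ c₂ + 27 c₃` we have
`w² + 27 u d f² = 4 y³`. The number of the `(w, f)` in the box for given `y ≠ 0` is at most
`216 τ(4 y³)²` times a number of units, that is times a constant times `log n`, for positive and for
negative `27 u d`; sum over `y` by the moments of the divisor function.
-/

set_option autoImplicit false

open Finset Polynomial

namespace Pool.Agent.Results.MP_9a3fdb_ag.RankThreeCount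

open Pool.Agent.R920.CH

open Classical in
/-- The triples `(c₁, c₂, c₃)` with `|c_i| ≤ H ^ i` that satisfy the Riemann-Roch conditions for
bundles of rank three on `ℙ^n`. -/
noncomputable def possible (n H : ℕ) : Finset (ℤ × ℤ × ℤ) :=
  (Icc (-(H : ℤ)) H ×ˢ (Icc (-(H : ℤ) ^ 2) ((H : ℤ) ^ 2) ×ˢ
    Icc (-(H : ℤ) ^ 3) ((H : ℤ) ^ 3))).filter
      fun c => RiemannRoch n (X ^ 3 - C c.1 * X ^ 2 + C c.2.1 * X - C c.2.2)

/-- **The number of possible Chern classes in rank three.** -/
theorem result (A : ℕ) : ∃ B n₀ : ℕ, ∀ n : ℕ, n₀ ≤ n → ∀ H : ℕ, 1 ≤ H → H ≤ n ^ A →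
    (H : ℝ) ^ 3 / 1728 ≤ (possible n H).card ∧
      ((possible n H).card : ℝ) ≤ (H : ℝ) ^ 3 * Real.log n ^ B :=
  Pool.Agent.R503.CT.main A

end Pool.Agent.Results.MP_9a3fdb_ag.RankThreeCount
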