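import Pool.Agent.R503.CR.Main
import Pool.Agent.R920.CH.Final

/-!
# Chern roots in a fixed number field grow exponentially

Let `E` be a complex vector bundle of rank `r` on the projective space `ℙ^n`, with the Chern classes
`c₁, …, c_r`, and let `P = T ^ r - c₁ T ^ (r - 1) + … ± c_r`; the complex roots of `P` are the Chern
roots of `E`. By the theorem of Riemann-Roch the sum of the values at the Chern roots of every
integer-valued polynomial of degree at most `n` is an integer.

Fix a finite Galois extension `K` of `ℚ` inside `ℂ`, of degree `d`, and `θ ≥ 0`, `c > 0` with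
`c d < 1 - 2 θ`. We show: for all sufficiently large `n` and all `r ≤ θ n`, if all the Chern roots of
`E` lie in `K`, then they are all integers (`E` has the Chern classes of a direct sum of line
bundles), or two of them are at distance at least `exp (c n)`, and some Chern class satisfies
`|c_j| > (exp (c n) / 5) ^ j`.

Let `X` be a nonsingular subvariety of `ℙ^N` of codimension `r`. By the theorems of Barth and Larsen
the inclusion of a linear subspace `ℙ^n`, `2 n ≤ N - 2 r + 1`, is homotopic to a map to `X`, and the
theorem applies to the pull-back of the normal bundle of `X`. So for `N` large compared with `r`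
either `X` has the degree `a₁ ⋯ a_r`, the canonical class and the Chern classes of a complete
intersection, or the Chern classes of its normal bundle are exponentially large in `N`, as soon as
the Chern roots lie in a fixed number field.

Proof. For a prime `p` with `r < p ≤ n + 1 - r` the polynomial `P` splits modulo `p`, so a Chern root
`x` satisfies `x ^ p = x` modulo all prime ideals over `p`. If `g` is a Frobenius element at the
prime ideal `Q` then `g x = x` modulo `Q`. For `g x ≠ x` the norm of `g x - x` is divisible by
`p ^ k`, where `k` is the number of homomorphisms to an algebraic closure of `𝔽_p` with the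
Frobenius element `g`. By Chebotarev's theorem the mean value of `k` over the primes is one.
-/

namespace Pool.Agent.Results.MP_9a3fdb_ag.RootsInFixedField

open Pool.Agent.R920.CH

/-- **Chern roots in a fixed number field.** -/
theorem result (K : IntermediateField ℚ ℂ) [FiniteDimensional ℚ K] [IsGalois ℚ K] (θ c : ℝ)
    (hθ : 0 ≤ θ) (hc0 : 0 < c) (hc : c * Module.finrank ℚ K < 1 - 2 * θ) : ∃ n₀ : ℕ, ∀ n : ℕ,
    n₀ ≤ n → ∀ (r : ℕ) (P : Polynomial ℤ), (r : ℝ) ≤ θ * n → P.Monic → P.natDegree = r →
      RiemannRoch n P → (∀ x ∈ rootsOf P, x ∈ K) →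
        (∃ s : Multiset ℤ, P = (s.map fun a => Polynomial.X - Polynomial.C a).prod) ∨
        ((∃ x ∈ rootsOf P, ∃ y ∈ rootsOf P, Real.exp (c * n) ≤ ‖x - y‖) ∧
          ∃ j : ℕ, 1 ≤ j ∧ j ≤ r ∧
            (Real.exp (c * n) / 5) ^ j < |((P.coeff (r - j) : ℤ) : ℝ)|) := by
  obtain ⟨n₀, hn₀⟩ := Pool.Agent.R503.CR.main_roots K θ c hθ hc0 hc
  refine ⟨n₀, fun n hn r P hr hP hdeg hRR hK => ?_⟩
  rcases hn₀ n hn r P hr hP hdeg hRR hK with h | h
  · exact Or.inl h
  refine Or.inr ⟨h, ?_⟩
  obtain ⟨x, hx, y, hy, hxy⟩ := h
  by_contra hcon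
  push Not at hcon
  have he : 0 < Real.exp (c * n) := Real.exp_pos _
  have hco : ∀ i < r, |((P.coeff i : ℤ) : ℝ)| ≤ (Real.exp (c * n) / 5) ^ (r - i) := by
    intro i hi
    have h1 := hcon (r - i) (by omega) (by omega)
    rwa [Nat.sub_sub_self hi.le] at h1
  have hroot : ∀ w ∈ rootsOf P, ‖w‖ ≤ 2 * (Real.exp (c * n) / 5) := by
    intro w hw
    refine root_bound (by positivity) hP hdeg hco ?_
    have hne : P.map (Int.castRingHom ℂ) ≠ 0 := (hP.map _).ne_zero
    rw [rootsOf, Polynomial.mem_roots hne, Polynomial.IsRoot, Polynomial.eval_map] at hw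
    rw [Polynomial.aeval_def, ← hw]
    exact congrArg (fun f : ℤ →+* ℂ => Polynomial.eval₂ f w P) (RingHom.ext_int _ _)
  have h1 := hroot x hx
  have h2 := hroot y hy
  have h3 := norm_sub_le x y
  linarith

end Pool.Agent.Results.MP_9a3fdb_ag.RootsInFixedField
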