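import Pool.Agent.R920.CH.Final

/-!
# Vector bundles with small Chern classes and numerical complete intersections

Let `E` be a (topological or algebraic) complex vector bundle of rank `r` on the projective space
`ℙ^n`, with the Chern classes `c₁, …, c_r`, and let `P = T ^ r - c₁ T ^ (r - 1) + … ± c_r`; the
complex roots of `P` are the Chern roots of `E`. By the theorem of Riemann-Roch the sum of the
values at the Chern roots of every integer-valued polynomial of degree at most `n` is an integer.
We show: if `n ≥ 70 r` and the Chern roots are at distance at most `n / 12` from an integer `c`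
(the same for all roots), for example if the Chern classes of `E(-c)` satisfy
`|c_i| ≤ (n / 24) ^ i` for all `i`, then all the Chern roots are integers: `E` has the Chern
classes of a direct sum of line bundles.

Let `X` be a nonsingular subvariety of `ℙ^N` of codimension `r`. By the theorems of Barth and
Larsen the inclusion of a linear subspace `ℙ^n`, `2 n ≤ N - 2 r + 1`, is homotopic to a map to `X`,
and for `r ≤ n` the theorem applies to the pull-back of the normal bundle of `X`. So if `N` is
large compared with `r` and the Chern classes `c_i h ^ i` of the normal bundle satisfy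
`|c_i| ≤ (n / 24) ^ i`, then there are integers `a₁, …, a_r` such that `X` has the degree
`a₁ ⋯ a_r`, the canonical class `(a₁ + … + a_r - N - 1) h` and the Chern classes of a complete
intersection of hypersurfaces of the degrees `a₁, …, a_r`.
-/

open Polynomial

namespace Pool.Agent.Results.MP_9a3fdb_ag.SmallChernClasses

open Pool.Agent.R920.CH

/-- **Small Chern roots are integers.** -/
theorem result (n r : ℕ) (hn : 70 * r ≤ n) (P : ℤ[X]) (hP : P.Monic) (hr : P.natDegree = r)
    (hRR : RiemannRoch n P) (c : ℤ)
    (h : (∀ x ∈ rootsOf P, ‖x - c‖ ≤ n / 12) ∨
      ∀ i < r, |(((P.comp (X + C c)).coeff i : ℤ) : ℝ)| ≤ ((n : ℝ) / 24) ^ (r - i)) :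
    ∃ s : Multiset ℤ, P = (s.map fun a => X - C a).prod := by
  rcases h with h | h
  · exact main hn P hP hr hRR c h
  · exact main_coeff hn P hP hr hRR c h

end Pool.Agent.Results.MP_9a3fdb_ag.SmallChernClasses
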